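import Pool.Agent.Helper11.M3.Goals4
import Pool.Agent.Helper17.M3.Ful

/-!
# Project M3 (MP_fc6b1e_nt, step 2), packet Q_FUL
-/

set_option autoImplicit false

namespace Pool.Agent.Helper94.M3

open Finset Pool.Agent.Helper17.PP Pool.Agent.Helper17.PP0 Pool.Agent.Helper17.PP2
  Pool.Agent.Helper11.M3 Pool.Agent.Helper74.PP

section

variable {p : ℕ} {B B₀ k U Λ C : Type} [Field k] [AddCommGroup U] [Module k U]
    [AddCommGroup Λ] [Module k Λ] [AddCommGroup C] (S : Sys p B B₀ k U Λ C)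

open Classical in
/-- The label function which is `t` at `q` and `c` on `D`. -/
noncomputable def tr (D : Finset B) (q : B) (t : k) (c : B → k) : B → k :=
  fun q' ↦ if q' = q then t else if q' ∈ D then c q' else 0

open Classical in
/-- The sum over the label functions with support in `D` and `q`, not zero at `q`. -/
theorem sum_tr [Fintype k] (hlab : C_LAB) (P b D : Finset B) (q : B) (hb : b ⊆ P) (hq : q ∈ b)
    (hrsb : D ⊆ b) (hqrs : q ∉ D) (G : (B → k) → ℂ) :
    ∑ c ∈ lab k b with (c q ≠ 0 ∧ ∀ q', c q' ≠ 0 → q' = q ∨ q' ∈ D), G c =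
      ∑ t : k with t ≠ 0, ((Fintype.card k : ℂ) ^ D.card / ((lab k P).card : ℂ)) *
        ∑ c ∈ lab k P, G (tr D q t c) := by
  have hrs : D ⊆ P := hrsb.trans hb
  have h5 := (hlab B k P).2.2.2.2
  have h1 := (hlab B k P).1
  have key : ∀ t : k, ((Fintype.card k : ℂ) ^ D.card / ((lab k P).card : ℂ)) *
      ∑ c ∈ lab k P, G (tr D q t c) = ∑ g ∈ lab k D, G (tr D q t g) := by
    intro t
    have h2 := h5 (fun c => G (tr D q t c)) (fun c => G (tr D q t c)) D hrs (by
      intro f _ g _ hfg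
      have h3 : tr D q t f = tr D q t g := by
        funext q'
        unfold tr
        split_ifs with c1 c2
        · rfl
        · exact hfg _ c2
        · rfl
      change G (tr D q t f) = G (tr D q t g)
      rw [h3])
    rw [div_mul_eq_mul_div, h2, h1]
    push_cast
    rw [mul_div_cancel_left₀]
    exact pow_ne_zero _ (Nat.cast_ne_zero.mpr Fintype.card_ne_zero)
  rw [Finset.sum_congr rfl (fun t _ => key t), ← Finset.sum_product']
  symm
  refine Finset.sum_bij' (fun z _ => tr D q z.1 z.2)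
    (fun c _ => (c q, fun q' => if q' ∈ D then c q' else 0)) ?_ ?_ ?_ ?_ ?_
  · rintro ⟨t, g⟩ hz
    rw [mem_product, mem_filter] at hz
    obtain ⟨⟨-, ht⟩, hg⟩ := hz
    rw [mem_filter, mem_lab]
    refine ⟨?_, ?_, ?_⟩
    · intro q' hq'
      change (if q' = q then t else if q' ∈ D then g q' else 0) = 0
      rw [if_neg (fun h : q' = q => hq' (h ▸ hq)), if_neg (fun h => hq' (hrsb h))]
    · change (if q = q then t else if q ∈ D then g q else 0) ≠ 0
      rw [if_pos rfl]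
      exact ht
    · intro q' hq'
      change (if q' = q then t else if q' ∈ D then g q' else 0) ≠ 0 at hq'
      by_cases c1 : q' = q
      · exact Or.inl c1
      · rw [if_neg c1] at hq'
        by_cases c2 : q' ∈ D
        · exact Or.inr c2
        · rw [if_neg c2] at hq'
          exact absurd rfl hq'
  · intro c hc
    rw [mem_filter, mem_lab] at hc
    rw [mem_product, mem_filter]
    refine ⟨⟨mem_univ _, hc.2.1⟩, ?_⟩
    rw [mem_lab]
    intro q' hq'
    exact if_neg hq'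
  · rintro ⟨t, g⟩ hz
    rw [mem_product, mem_filter] at hz
    obtain ⟨⟨-, ht⟩, hg⟩ := hz
    rw [mem_lab] at hg
    apply Prod.ext
    · change (if q = q then t else if q ∈ D then g q else 0) = t
      rw [if_pos rfl]
    · funext q'
      change (if q' ∈ D then (if q' = q then t else if q' ∈ D then g q' else 0)
        else 0) = g q'
      by_cases c2 : q' ∈ D
      · rw [if_pos c2, if_neg (fun h : q' = q => hqrs (h ▸ c2)), if_pos c2]
      · rw [if_neg c2]
        exact (hg q' c2).symm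
  · intro c hc
    rw [mem_filter, mem_lab] at hc
    funext q'
    change (if q' = q then c q else if q' ∈ D then (if q' ∈ D then c q' else 0)
      else 0) = c q'
    by_cases c1 : q' = q
    · rw [if_pos c1, c1]
    · rw [if_neg c1]
      by_cases c2 : q' ∈ D
      · rw [if_pos c2, if_pos c2]
      · rw [if_neg c2]
        by_contra hcon
        rcases hc.2.2 q' (fun h => hcon h.symm) with h | h
        · exact c1 h
        · exact c2 h
  · intro z _
    rfl

theorem rs₄_sub (b : Finset B) (q P₁ : B) : rs₄ S b q P₁ ⊆ b := by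
  classical
  intro x hx
  rw [rs₄, mem_filter] at hx
  exact Finset.mem_of_mem_erase (Finset.mem_of_mem_erase hx.1)

theorem sp_sub (b : Finset B) (q P₁ : B) : sp S b q P₁ ⊆ b := by
  classical
  intro x hx
  rw [sp, mem_filter] at hx
  exact Finset.mem_of_mem_erase (Finset.mem_of_mem_erase hx.1)

theorem notMem_rs₄ (b : Finset B) (q P₁ : B) : q ∉ rs₄ S b q P₁ := by
  classical
  intro h
  rw [rs₄, mem_filter] at h
  exact lt_irrefl _ h.2.2

theorem cutd_eq_tr (b : Finset B) (q P₁ : B) (t : k) (c : B → k) (q' : B) (hq' : q' ∈ b) :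
    cutd S (S.bl q) q P₁ t c q' = tr (rs₄ S b q P₁) q t c q' := by
  classical
  unfold cutd tr
  by_cases h : q' = q
  · rw [if_pos h, if_pos h]
  · rw [if_neg h, if_neg h]
    by_cases h1 : q' = P₁
    · rw [if_pos h1, if_neg]
      intro h3
      rw [rs₄, mem_filter, mem_erase] at h3
      exact h3.1.1 h1
    · rw [if_neg h1]
      by_cases h2 : S.spl q' ∧ S.bl q' < S.bl q
      · rw [if_pos h2, if_pos]
        rw [rs₄, mem_filter, mem_erase, mem_erase]
        exact ⟨⟨h1, h, hq'⟩, h2⟩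
      · rw [if_neg h2, if_neg]
        intro h3
        rw [rs₄, mem_filter] at h3
        exact h2 h3.2

variable [Algebra (ZMod p) k]

theorem ph_eq₄ (ψ : AddChar k ℂ) (χ : AddChar Λ ℂ) (b : Finset B) (q P₁ : B) (hw : Wv S b q)
    (hP₁ : P₁ ∈ b) (hne : P₁ ≠ q) (x : U) (t s y₁ : k) (c y : B → k) :
    ph S ψ χ b x (cutd S (S.bl q) q P₁ t c) (cute S (S.bl q) q P₁ s y₁ y) =
      χ (S.lam₀ x + ∑ q' ∈ b, S.lam q' (tr (rs₄ S b q P₁) q t c q')) *
        (ψ (s * S.R b x (tr (rs₄ S b q P₁) q t c) q) *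
          ψ (y₁ * S.R b x (tr (rs₄ S b q P₁) q t c) P₁) *
          ∏ q' ∈ sp S b q P₁, ψ (y q' * S.R b x (tr (rs₄ S b q P₁) q t c) q')) := by
  classical
  have h1 := cutd_eq_tr S b q P₁ t c
  have h2 : ∀ q' ∈ b, S.R b x (cutd S (S.bl q) q P₁ t c) q' =
      S.R b x (tr (rs₄ S b q P₁) q t c) q' :=
    fun q' hq' => Pool.Agent.Helper86.PP2.R_congr S b x _ _ q' hq' h1
  unfold ph
  rw [Finset.sum_congr rfl (fun q' hq' => by rw [h1 q' hq']),
    Finset.prod_congr rfl (fun q' hq' => by rw [h2 q' hq']),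
    ← Finset.mul_prod_erase b _ hw.mem,
    ← Finset.mul_prod_erase (b.erase q) _ (mem_erase.2 ⟨hne, hP₁⟩)]
  have h3 : cute S (S.bl q) q P₁ s y₁ y q = s := by
    unfold cute
    rw [if_pos rfl]
  have h3' : cute S (S.bl q) q P₁ s y₁ y P₁ = y₁ := by
    unfold cute
    rw [if_neg hne, if_pos rfl]
  rw [h3, h3', mul_assoc]
  congr 3
  rw [sp, Finset.prod_filter]
  apply Finset.prod_congr rfl
  intro q' hq'
  rw [mem_erase, mem_erase] at hq'
  by_cases h4 : S.spl q'
  · rw [if_pos h4]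
    have h5 : cute S (S.bl q) q P₁ s y₁ y q' = y q' := by
      unfold cute
      rw [if_neg hq'.2.1, if_neg hq'.1, if_pos ⟨h4, hw.uniq q' hq'.2.2 hq'.2.1 h4⟩]
    rw [h5]
  · rw [if_neg h4]
    have h5 : cute S (S.bl q) q P₁ s y₁ y q' = 0 := by
      unfold cute
      rw [if_neg hq'.2.1, if_neg hq'.1, if_neg (fun h => h4 h.1)]
    rw [h5, zero_mul, AddChar.map_zero_eq_one]

theorem isPre₄_iff (b : Finset B) (q P₁ : B) (x : U) (t : k) (ht : t ≠ 0) (c : B → k) :
    IsPre₄ S b q P₁ x (tr (rs₄ S b q P₁) q t c) ↔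
      S.lam₀ x + ∑ q' ∈ b, S.lam q' (tr (rs₄ S b q P₁) q t c q') = 0 ∧
        ∀ q' ∈ sp S b q P₁, S.R b x (tr (rs₄ S b q P₁) q t c) q' = 0 := by
  classical
  constructor
  · intro h
    exact ⟨h.lam, h.loc⟩
  · rintro ⟨h1, h2⟩
    refine ⟨?_, ?_, h1, h2⟩
    · intro q' hq'
      change (if q' = q then t else if q' ∈ rs₄ S b q P₁ then c q' else 0) ≠ 0 at hq'
      by_cases c1 : q' = q
      · exact Or.inl c1
      · rw [if_neg c1] at hq'
        by_cases c2 : q' ∈ rs₄ S b q P₁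
        · exact Or.inr c2
        · rw [if_neg c2] at hq'
          exact absurd rfl hq'
    · change (if q = q then t else if q ∈ rs₄ S b q P₁ then c q else 0) ≠ 0
      rw [if_pos rfl]
      exact ht

open Classical in
/-- The sum over the pairs with `IsPre₄` and `c q = t` of the characters at the conditions at `q`
and `P₁`. -/
theorem ful₄_eq [Fintype k] [Fintype U] [Fintype Λ] (hlab : C_LAB) (ψ : AddChar k ℂ)
    (hψ : ψ ≠ 1) (P b : Finset B) (q P₁ : B) (hb : b ⊆ P) (hw : Wv S b q) (hP₁ : P₁ ∈ b)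
    (hne : P₁ ≠ q) (t : k) (ht : t ≠ 0) (s y₁ : k) :
    ful₄ S ψ P b q P₁ t s y₁ (fun _ _ _ => True) =
      ∑ x : U, ∑ c ∈ lab k b,
        if IsPre₄ S b q P₁ x c ∧ c q = t then
          ψ (s * S.R b x c q) * ψ (y₁ * S.R b x c P₁) else 0 := by
  have hq := hw.mem
  have hP : ((lab k P).card : ℂ) ≠ 0 := by
    rw [(hlab B k P).1]
    push_cast
    exact pow_ne_zero _ (Nat.cast_ne_zero.mpr Fintype.card_ne_zero)
  have hΛ : (Fintype.card Λ : ℂ) ≠ 0 := Nat.cast_ne_zero.mpr Fintype.card_ne_zero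
  have hrg : sp S b q P₁ ⊆ P := (sp_sub S b q P₁).trans hb
  unfold ful₄
  simp only [Finset.filter_true]
  rw [Finset.mul_sum]
  apply Finset.sum_congr rfl
  intro x _
  have h1 := sum_tr hlab P b (rs₄ S b q P₁) q hb hq (rs₄_sub S b q P₁) (notMem_rs₄ S b q P₁)
    (fun c => if IsPre₄ S b q P₁ x c ∧ c q = t then
      ψ (s * S.R b x c q) * ψ (y₁ * S.R b x c P₁) else 0)
  have h2 : ∑ c ∈ lab k b with (c q ≠ 0 ∧ ∀ q', c q' ≠ 0 → q' = q ∨ q' ∈ rs₄ S b q P₁),
      (if IsPre₄ S b q P₁ x c ∧ c q = t then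
        ψ (s * S.R b x c q) * ψ (y₁ * S.R b x c P₁) else 0) =
      ∑ c ∈ lab k b, (if IsPre₄ S b q P₁ x c ∧ c q = t then
        ψ (s * S.R b x c q) * ψ (y₁ * S.R b x c P₁) else 0) := by
    apply Finset.sum_filter_of_ne
    intro c _ hc
    by_cases h3 : IsPre₄ S b q P₁ x c
    · exact ⟨h3.ne, h3.supp⟩
    · exact absurd (if_neg fun h ↦ h3 h.1) hc
  have htq : ∀ (t' : k) (c : B → k), tr (rs₄ S b q P₁) q t' c q = t' := fun t' c ↦ by
    unfold tr
    rw [if_pos rfl]
  rw [← h2, h1, Finset.sum_eq_single t]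
  · have h4 : ∑ χ : AddChar Λ ℂ, ∑ c ∈ lab k P, ∑ y ∈ lab k P,
        ph S ψ χ b x (cutd S (S.bl q) q P₁ t c) (cute S (S.bl q) q P₁ s y₁ y) =
        ∑ c ∈ lab k P, (if IsPre₄ S b q P₁ x (tr (rs₄ S b q P₁) q t c) ∧
            tr (rs₄ S b q P₁) q t c q = t then
          ψ (s * S.R b x (tr (rs₄ S b q P₁) q t c) q) *
            ψ (y₁ * S.R b x (tr (rs₄ S b q P₁) q t c) P₁) else 0) *
            ((Fintype.card Λ : ℂ) * ((lab k P).card : ℂ)) := by
      rw [Finset.sum_comm]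
      apply Finset.sum_congr rfl
      intro c _
      have h5 : ∀ χ : AddChar Λ ℂ, ∑ y ∈ lab k P,
          ph S ψ χ b x (cutd S (S.bl q) q P₁ t c) (cute S (S.bl q) q P₁ s y₁ y) =
          χ (S.lam₀ x + ∑ q' ∈ b, S.lam q' (tr (rs₄ S b q P₁) q t c q')) *
            (ψ (s * S.R b x (tr (rs₄ S b q P₁) q t c) q) *
              ψ (y₁ * S.R b x (tr (rs₄ S b q P₁) q t c) P₁) *
              (if ∀ q' ∈ sp S b q P₁, S.R b x (tr (rs₄ S b q P₁) q t c) q' = 0 then
                ((lab k P).card : ℂ) else 0)) := by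
        intro χ
        rw [Finset.sum_congr rfl
          (fun y _ => ph_eq₄ S ψ χ b q P₁ hw hP₁ hne x t s y₁ c y),
          ← Finset.mul_sum, ← Finset.mul_sum,
          sum_ind hlab ψ hψ P (sp S b q P₁) hrg
            (fun q' => S.R b x (tr (rs₄ S b q P₁) q t c) q')]
      rw [Finset.sum_congr rfl (fun χ _ => h5 χ), ← Finset.sum_mul, AddChar.sum_apply_eq_ite]
      have h6 := isPre₄_iff S b q P₁ x t ht c
      by_cases c1 : S.lam₀ x + ∑ q' ∈ b, S.lam q' (tr (rs₄ S b q P₁) q t c q') = 0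
      · by_cases c2 : ∀ q' ∈ sp S b q P₁, S.R b x (tr (rs₄ S b q P₁) q t c) q' = 0
        · rw [if_pos c1, if_pos c2, if_pos ⟨h6.mpr ⟨c1, c2⟩, htq t c⟩]
          ring
        · have h7 : ¬ (IsPre₄ S b q P₁ x (tr (rs₄ S b q P₁) q t c) ∧
              tr (rs₄ S b q P₁) q t c q = t) := fun h => c2 (h6.mp h.1).2
          rw [if_neg c2, if_neg h7]
          ring
      · have h7 : ¬ (IsPre₄ S b q P₁ x (tr (rs₄ S b q P₁) q t c) ∧
            tr (rs₄ S b q P₁) q t c q = t) := fun h => c1 (h6.mp h.1).1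
        rw [if_neg c1, if_neg h7]
        ring
    rw [h4, ← Finset.sum_mul]
    field_simp
  · intro t' _ hne'
    rw [Finset.sum_eq_zero, mul_zero]
    intro c _
    rw [if_neg]
    rintro ⟨_, h⟩
    rw [htq] at h
    exact hne' h
  · intro h
    exact (h (mem_filter.2 ⟨mem_univ _, ht⟩)).elim

end

/-- **Q_FUL**. -/
theorem q_ful (hlab : C_LAB) : Q_FUL := by
  classical
  intro p hpF B B₀ k U Λ C _ _ _ _ _ _ _ _ _ _ S ψ hψ Y P b q P₁ hb hw hP₁ hne hY
  have hprim : ψ.IsPrimitive := AddChar.IsPrimitive.of_ne_one hψ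
  have hQr : (0 : ℝ) < Fintype.card k := by exact_mod_cast Fintype.card_pos
  have hYr : (0 : ℝ) < Nat.card Y := by exact_mod_cast Nat.card_pos
  have hf : ∀ t : k, t ≠ 0 → ∀ s y₁ : k, (ful₄ S ψ P b q P₁ t s y₁ fun _ _ _ ↦ True).re =
      ∑ x : U, ∑ c ∈ lab k b,
        if IsPre₄ S b q P₁ x c ∧ c q = t then
          (ψ (s * S.R b x c q) * ψ (y₁ * S.R b x c P₁)).re else 0 := by
    intro t ht s y₁
    rw [ful₄_eq S hlab ψ hψ P b q P₁ hb hw hP₁ hne t ht s y₁, Complex.re_sum]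
    refine Finset.sum_congr rfl fun x _ ↦ ?_
    rw [Complex.re_sum]
    refine Finset.sum_congr rfl fun c _ ↦ ?_
    split_ifs
    · rfl
    · rfl
  have hsum : ∑ t : k with t ≠ 0, ∑ s : k, ∑ y₁ : k with y₁ ∈ Y,
      (ful₄ S ψ P b q P₁ t s y₁ fun _ _ _ ↦ True).re =
      ∑ x : U, ∑ c ∈ lab k b, if IsPre₄ S b q P₁ x c then
        ∑ s : k, ∑ y₁ : k with y₁ ∈ Y,
          (ψ (s * S.R b x c q) * ψ (y₁ * S.R b x c P₁)).re else 0 := by
    have h1 : ∑ t : k with t ≠ 0, ∑ s : k, ∑ y₁ : k with y₁ ∈ Y,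
        (ful₄ S ψ P b q P₁ t s y₁ fun _ _ _ ↦ True).re =
        ∑ t : k with t ≠ 0, ∑ x : U, ∑ c ∈ lab k b,
          if IsPre₄ S b q P₁ x c ∧ c q = t then ∑ s : k, ∑ y₁ : k with y₁ ∈ Y,
            (ψ (s * S.R b x c q) * ψ (y₁ * S.R b x c P₁)).re else 0 := by
      refine Finset.sum_congr rfl fun t ht ↦ ?_
      rw [Finset.sum_congr rfl fun s _ ↦ Finset.sum_congr rfl fun y₁ _ ↦
        hf t (mem_filter.1 ht).2 s y₁, ← Finset.sum_product', Finset.sum_comm]
      refine Finset.sum_congr rfl fun x _ ↦ ?_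
      rw [Finset.sum_comm]
      refine Finset.sum_congr rfl fun c _ ↦ ?_
      rw [← Finset.sum_product']
      split_ifs
      · rfl
      · exact Finset.sum_const_zero
    rw [h1, Finset.sum_comm]
    refine Finset.sum_congr rfl fun x _ ↦ ?_
    rw [Finset.sum_comm]
    refine Finset.sum_congr rfl fun c _ ↦ ?_
    by_cases h2 : IsPre₄ S b q P₁ x c
    · rw [if_pos h2, Finset.sum_eq_single (c q)]
      · rw [if_pos ⟨h2, rfl⟩]
      · intro t _ hne'
        exact if_neg fun h ↦ hne' h.2.symm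
      · intro h
        exact (h (mem_filter.2 ⟨mem_univ _, h2.ne⟩)).elim
    · rw [if_neg h2]
      exact Finset.sum_eq_zero fun t _ ↦ if_neg fun h ↦ h2 h.1
  rw [hsum, one_div, le_inv_mul_iff₀ (mul_pos hQr hYr), cnt₅, Finset.card_filter,
    Finset.sum_product]
  push_cast
  rw [Finset.mul_sum]
  refine Finset.sum_le_sum fun x _ ↦ ?_
  rw [Finset.mul_sum]
  refine Finset.sum_le_sum fun c _ ↦ ?_
  -- the double sum
  have hds : ∑ s : k, ∑ y₁ : k with y₁ ∈ Y, (ψ (s * S.R b x c q) * ψ (y₁ * S.R b x c P₁)).re =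
      (if S.R b x c q = 0 then (Fintype.card k : ℝ) else 0) *
        (∑ y₁ : k with y₁ ∈ Y, ψ (y₁ * S.R b x c P₁)).re := by
    have e1 : ∑ s : k, ∑ y₁ : k with y₁ ∈ Y,
        (ψ (s * S.R b x c q) * ψ (y₁ * S.R b x c P₁)).re =
        ((∑ s : k, ψ (s * S.R b x c q)) * ∑ y₁ : k with y₁ ∈ Y, ψ (y₁ * S.R b x c P₁)).re := by
      rw [Finset.sum_mul, Complex.re_sum]
      refine Finset.sum_congr rfl fun s _ ↦ ?_
      rw [Finset.mul_sum, Complex.re_sum]
    rw [e1, AddChar.sum_mulShift _ hprim]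
    split_ifs with h0
    · rw [← Complex.ofReal_natCast, Complex.re_ofReal_mul]
    · rw [Nat.cast_zero, zero_mul, zero_mul, Complex.zero_re]
  have hcs := Pool.Agent.Helper17.M3.char_sum Y ψ (S.R b x c P₁)
  by_cases h2 : IsPre₄ S b q P₁ x c
  · rw [if_pos h2, hds]
    by_cases h3 : S.R b x c q = 0 ∧ (S.spl P₁ → S.R b x c P₁ = 0)
    · rw [if_pos ⟨h2, h3⟩, if_pos h3.1, mul_one]
      have h4 : (∑ y₁ : k with y₁ ∈ Y, ψ (y₁ * S.R b x c P₁)).re = Nat.card Y := by
        rcases hY with rfl | hs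
        · have e2 : (univ.filter fun y₁ : k ↦ y₁ ∈ (⊥ : AddSubgroup k)) = {0} := by
            ext y₁
            rw [mem_filter, mem_singleton, AddSubgroup.mem_bot]
            exact ⟨fun h ↦ h.2, fun h ↦ ⟨mem_univ _, h⟩⟩
          rw [e2, Finset.sum_singleton, zero_mul, AddChar.map_zero_eq_one, Complex.one_re]
          simp
        · exact hcs.2 (h3.2 hs)
      rw [h4]
    · rw [if_neg (fun h ↦ h3 h.2), mul_zero]
      refine mul_nonneg ?_ hcs.1
      split_ifs
      · exact hQr.le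
      · exact le_rfl
  · rw [if_neg h2, if_neg (fun h ↦ h2 h.1), mul_zero]

end Pool.Agent.Helper94.M3
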